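import Mathlib

/-!
# Countable unsecable chains and doubling intervals

A countable chain `A` is unsecable if and only if `X + X < A` for every initial or final interval
`X` of `A` with `X < A`, and if and only if `X + X < A` for every interval (convex subset) `X` of
`A` with `X < A`.

The main step: if `A = B + C` with `A ≰ B` and `A ≰ C` (a bad cut), then `B + B ≤ B + C` and
`B ≰ C` give `B = P + Q` with `B + P ≤ B` and `Q ≤ C`, and `(P, Q + C)` is again a bad cut. Hence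
`P + 1 + P ≤ B`, and by iteration a binary tree, so a copy of `ℚ`, embeds in `B`.
-/

set_option autoImplicit false

namespace Pool.Agent.Results.MP_5790d7_co.Characterisation

/-- `Emb A B` is `A ≤ B`: the chain `A` embeds in the chain `B`. -/
def Emb (A B : Type) [LinearOrder A] [LinearOrder B] : Prop := Nonempty (A ↪o B)

/-- `SEmb A B` is `A < B`: `A ≤ B` but not `B ≤ A`. -/
def SEmb (A B : Type) [LinearOrder A] [LinearOrder B] : Prop := Emb A B ∧ ¬ Emb B A

/-- The chain `A` is unsecable: whenever `A` splits as a sum `B + C`, `A ≤ B` or `A ≤ C`. -/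
def Unsecable (A : Type) [LinearOrder A] : Prop :=
  ∀ (B C : Type) [LinearOrder B] [LinearOrder C], Nonempty (A ≃o (B ⊕ₗ C)) → Emb A B ∨ Emb A C

/-- Every initial interval `X` of `A` with `X < A` satisfies `X + X < A`. -/
def DoublingInitial (A : Type) [LinearOrder A] : Prop :=
  ∀ X : Set A, IsLowerSet X → SEmb X A → SEmb (X ⊕ₗ X) A

/-- Every final interval `X` of `A` with `X < A` satisfies `X + X < A`. -/
def DoublingFinal (A : Type) [LinearOrder A] : Prop :=
  ∀ X : Set A, IsUpperSet X → SEmb X A → SEmb (X ⊕ₗ X) A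

/-- Every interval (convex subset) `X` of `A` with `X < A` satisfies `X + X < A`. -/
def DoublingConvex (A : Type) [LinearOrder A] : Prop :=
  ∀ X : Set A, X.OrdConnected → SEmb X A → SEmb (X ⊕ₗ X) A

/-! ### Embeddings and sums -/

section Basic

variable {A B C D : Type} [LinearOrder A] [LinearOrder B] [LinearOrder C] [LinearOrder D]

lemma Emb.trans (h : Emb A B) (h' : Emb B C) : Emb A C := by
  obtain ⟨f⟩ := h
  obtain ⟨g⟩ := h'
  exact ⟨f.trans g⟩

lemma Emb.of_iso (e : A ≃o B) : Emb A B := ⟨e.toOrderEmbedding⟩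

lemma emb_of_strictMono {f : A → B} (hf : StrictMono f) : Emb A B :=
  ⟨OrderEmbedding.ofStrictMono f hf⟩

lemma emb_coe (X : Set A) : Emb X A := ⟨OrderEmbedding.subtype _⟩

lemma emb_of_subset {X Y : Set A} (h : X ⊆ Y) : Emb X Y :=
  emb_of_strictMono (f := fun x : X => (⟨x.1, h x.2⟩ : Y)) fun _ _ hab => hab

/-- A strictly monotone map from a lexicographic sum, given by its two parts. -/
lemma emb_sum_of {f : A → C} {g : B → C} (hf : StrictMono f) (hg : StrictMono g)
    (hfg : ∀ a b, f a < g b) : Emb (A ⊕ₗ B) C := by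
  refine emb_of_strictMono (f := fun x : A ⊕ₗ B => Sum.elim f g (ofLex x)) ?_
  intro a b hab
  rcases a with a | a <;> rcases b with b | b
  · exact hf (Sum.Lex.inl_lt_inl_iff.mp hab)
  · exact hfg a b
  · exact absurd hab Sum.Lex.not_inr_lt_inl
  · exact hg (Sum.Lex.inr_lt_inr_iff.mp hab)

lemma strictMono_inl : StrictMono (fun a : A => (Sum.inlₗ a : A ⊕ₗ B)) :=
  fun _ _ h => Sum.Lex.inl_lt_inl_iff.mpr h

lemma strictMono_inr : StrictMono (fun b : B => (Sum.inrₗ b : A ⊕ₗ B)) :=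
  fun _ _ h => Sum.Lex.inr_lt_inr_iff.mpr h

lemma Emb.sum (h : Emb A C) (h' : Emb B D) : Emb (A ⊕ₗ B) (C ⊕ₗ D) := by
  obtain ⟨f⟩ := h
  obtain ⟨g⟩ := h'
  exact emb_sum_of (f := fun a => (Sum.inlₗ (f a) : C ⊕ₗ D)) (g := fun b => Sum.inrₗ (g b))
    (strictMono_inl.comp f.strictMono) (strictMono_inr.comp g.strictMono)
    (fun _ _ => Sum.Lex.inl_lt_inr _ _)

/-- A chain is the sum of an initial interval and its complement. -/
lemma iso_sum_compl (X : Set A) (hX : IsLowerSet X) : Nonempty (A ≃o (X ⊕ₗ (Xᶜ : Set A))) := by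
  have hs : ∀ (a : X) (b : (Xᶜ : Set A)), (a : A) < b := by
    intro a b
    by_contra hcon
    exact b.2 (hX (not_lt.1 hcon) a.2)
  let f : (X ⊕ₗ (Xᶜ : Set A)) → A := fun x => Sum.elim Subtype.val Subtype.val (ofLex x)
  have hf : StrictMono f := by
    intro a b hab
    rcases a with a | a <;> rcases b with b | b
    · have h : (Sum.inlₗ a : X ⊕ₗ (Xᶜ : Set A)) < Sum.inlₗ b := hab
      have h' := Sum.Lex.inl_lt_inl_iff.mp h
      exact h'
    · exact hs a b
    · exact absurd hab Sum.Lex.not_inr_lt_inl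
    · have h : (Sum.inrₗ a : X ⊕ₗ (Xᶜ : Set A)) < Sum.inrₗ b := hab
      have h' := Sum.Lex.inr_lt_inr_iff.mp h
      exact h'
  have hsurj : Function.Surjective f := by
    intro a
    by_cases ha : a ∈ X
    · exact ⟨Sum.inlₗ ⟨a, ha⟩, rfl⟩
    · exact ⟨Sum.inrₗ ⟨a, ha⟩, rfl⟩
  exact ⟨(hf.orderIsoOfSurjective f hsurj).symm⟩

/-- Splitting an embedding into a sum. -/
lemma split (h : Emb A (B ⊕ₗ C)) :
    ∃ X : Set A, IsLowerSet X ∧ Emb X B ∧ Emb (Xᶜ : Set A) C := by
  obtain ⟨f⟩ := h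
  let X : Set A := {a | ∃ b, f a = Sum.inlₗ b}
  have hXc : ∀ a, a ∉ X → ∃ c, f a = Sum.inrₗ c := by
    intro a ha
    rcases hfa : f a with b | c
    · exact absurd ⟨b, hfa⟩ ha
    · exact ⟨c, rfl⟩
  refine ⟨X, ?_, ?_, ?_⟩
  · rintro a a' haa ⟨b, hb⟩
    by_contra hcon
    obtain ⟨c, hc⟩ := hXc a' hcon
    have h1 : f a' ≤ f a := f.monotone haa
    rw [hb, hc] at h1
    exact Sum.Lex.not_inr_le_inl h1
  · have hch : ∀ a : X, ∃ b, f a.1 = Sum.inlₗ b := fun a => a.2
    choose g hg using hch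
    refine emb_of_strictMono (f := g) ?_
    intro a a' haa
    have h1 : f a.1 < f a'.1 := f.strictMono haa
    rw [hg, hg] at h1
    exact Sum.Lex.inl_lt_inl_iff.mp h1
  · have hch : ∀ a : (Xᶜ : Set A), ∃ c, f a.1 = Sum.inrₗ c := fun a => hXc a.1 a.2
    choose g hg using hch
    refine emb_of_strictMono (f := g) ?_
    intro a a' haa
    have h1 : f a.1 < f a'.1 := f.strictMono haa
    rw [hg, hg] at h1
    exact Sum.Lex.inr_lt_inr_iff.mp h1

/-- An unsecable chain which embeds in a sum embeds in one of the two summands. -/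
lemma Unsecable.emb_sum (hA : Unsecable A) (h : Emb A (B ⊕ₗ C)) : Emb A B ∨ Emb A C := by
  obtain ⟨X, hX, h1, h2⟩ := split h
  rcases hA X (Xᶜ : Set A) (iso_sum_compl X hX) with h3 | h3
  · exact Or.inl (h3.trans h1)
  · exact Or.inr (h3.trans h2)

end Basic

/-! ### Unsecable chains have the doubling property for all intervals -/

theorem convex_of_unsecable {A : Type} [LinearOrder A] (hA : Unsecable A) : DoublingConvex A := by
  rintro X hX ⟨hXA, hAX⟩
  refine ⟨?_, fun h => (hA.emb_sum h).elim hAX hAX⟩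
  rcases X.eq_empty_or_nonempty with hemp | hne
  · subst hemp
    refine emb_sum_of (f := fun x : (∅ : Set A) => (x : A)) (g := fun x : (∅ : Set A) => (x : A))
      (fun _ _ h => h) (fun _ _ h => h) ?_
    rintro ⟨a, ha⟩
    exact absurd ha (Set.notMem_empty a)
  -- `W` is the initial interval generated by `X`
  let W : Set A := {a | ∃ x ∈ X, a ≤ x}
  have hW : IsLowerSet W := by
    rintro a b hba ⟨x, hx, hax⟩
    exact ⟨x, hx, hba.trans hax⟩
  have hXW : X ⊆ W := fun x hx => ⟨x, hx, le_rfl⟩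
  rcases hA W (Wᶜ : Set A) (iso_sum_compl W hW) with h | h
  · -- `A ≤ W = L + X`, hence `A ≤ L`
    let L : Set A := {a | ∀ x ∈ X, a < x}
    have hWL : Emb W (L ⊕ₗ X) := by
      classical
      have hmem : ∀ a : W, a.1 ∉ L → a.1 ∈ X := by
        rintro ⟨a, x, hx, hax⟩ ha
        have ha' : ¬ ∀ x ∈ X, a < x := ha
        push Not at ha'
        obtain ⟨y, hy, hya⟩ := ha'
        exact hX.out hy hx ⟨hya, hax⟩
      refine emb_of_strictMono (f := fun a : W =>
        if h : a.1 ∈ L then (Sum.inlₗ ⟨a.1, h⟩ : L ⊕ₗ X) else Sum.inrₗ ⟨a.1, hmem a h⟩) ?_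
      intro a b hab
      by_cases ha : a.1 ∈ L <;> by_cases hb : b.1 ∈ L
      · simp only [ha, hb, dif_pos]
        exact Sum.Lex.inl_lt_inl_iff.mpr hab
      · simp only [ha, hb, dif_pos, dif_neg, not_false_eq_true]
        exact Sum.Lex.inl_lt_inr _ _
      · have h : a.1 ∈ L := fun x hx => lt_trans (show a.1 < b.1 from hab) (hb x hx)
        exact absurd h ha
      · simp only [ha, hb, dif_neg, not_false_eq_true]
        exact Sum.Lex.inr_lt_inr_iff.mpr hab
    have hAL : Emb A L := (hA.emb_sum (h.trans hWL)).elim id fun h' => absurd h' hAX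
    have hLX : Emb (L ⊕ₗ X) A :=
      emb_sum_of (f := fun a : L => (a : A)) (g := fun x : X => (x : A)) (fun _ _ h => h)
        (fun _ _ h => h) fun a x => a.2 x.1 x.2
    exact ((hXA.trans hAL).sum ⟨RelEmbedding.refl _⟩).trans hLX
  · -- `A ≤ Wᶜ`, and `X ≤ W`
    have h1 : Emb (X ⊕ₗ X) (W ⊕ₗ (Wᶜ : Set A)) := (emb_of_subset hXW).sum (hXA.trans h)
    obtain ⟨e⟩ := iso_sum_compl W hW
    exact h1.trans (Emb.of_iso e.symm)

/-! ### Bad cuts -/

/-- `X` is the lower part of a bad cut of `A`. -/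
def Bad {A : Type} [LinearOrder A] (X : Set A) : Prop :=
  IsLowerSet X ∧ ¬ Emb A X ∧ ¬ Emb A (Xᶜ : Set A)

/-- A bad cut `(X, Xᶜ)` gives another one, `(P, Pᶜ)`, with `P ⊆ X` nonempty and `X + P ≤ X`. -/
lemma bad_step {A : Type} [LinearOrder A] (hI : DoublingInitial A) (hF : DoublingFinal A)
    (X : Set A) (hX : Bad X) :
    ∃ P : Set A, Bad P ∧ P ⊆ X ∧ P.Nonempty ∧ Emb (X ⊕ₗ P) X := by
  classical
  obtain ⟨hlow, h1, h2⟩ := hX
  obtain ⟨⟨f⟩, -⟩ := hI X hlow ⟨emb_coe X, h1⟩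
  have h3 : ¬ Emb A ((Xᶜ : Set A) ⊕ₗ (Xᶜ : Set A)) :=
    (hF (Xᶜ : Set A) hlow.compl ⟨emb_coe _, h2⟩).2
  have h4 : ¬ Emb X (Xᶜ : Set A) := by
    intro h
    obtain ⟨e⟩ := iso_sum_compl X hlow
    exact h3 ((Emb.of_iso e).trans (h.sum ⟨RelEmbedding.refl _⟩))
  let P : Set A := {a | ∃ h : a ∈ X, f (Sum.inrₗ ⟨a, h⟩) ∈ X}
  have hPX : P ⊆ X := fun a ha => ha.1
  have hPlow : IsLowerSet P := by
    rintro a b hba ⟨ha, hfa⟩
    refine ⟨hlow hba ha, hlow (f.monotone ?_) hfa⟩
    exact Sum.Lex.inr_le_inr_iff.mpr hba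
  have hPne : P.Nonempty := by
    by_contra hcon
    rw [Set.not_nonempty_iff_eq_empty] at hcon
    apply h4
    have hout : ∀ x : X, f (Sum.inrₗ x) ∉ X := by
      intro x hx
      have : x.1 ∈ P := ⟨x.2, hx⟩
      rw [hcon] at this
      exact this
    refine emb_of_strictMono (f := fun x : X => (⟨f (Sum.inrₗ x), hout x⟩ : (Xᶜ : Set A))) ?_
    intro a b hab
    exact f.strictMono (Sum.Lex.inr_lt_inr_iff.mpr hab)
  obtain ⟨p, hp, hfp⟩ := hPne
  have hin : ∀ x : X, f (Sum.inlₗ x) ∈ X := by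
    intro x
    refine hlow (f.monotone ?_) hfp
    exact (Sum.Lex.inl_lt_inr _ _).le
  refine ⟨P, ⟨hPlow, fun h => h1 (h.trans (emb_of_subset hPX)), fun h => h3 (h.trans ?_)⟩, hPX,
    ⟨p, hp, hfp⟩, ?_⟩
  · -- `Pᶜ ≤ Xᶜ + Xᶜ`
    have hout : ∀ a : (Pᶜ : Set A), ∀ h : a.1 ∈ X, f (Sum.inrₗ ⟨a.1, h⟩) ∈ (Xᶜ : Set A) :=
      fun a h h' => a.2 ⟨h, h'⟩
    refine emb_of_strictMono (f := fun a : (Pᶜ : Set A) =>
      if h : a.1 ∈ X then (Sum.inlₗ ⟨f (Sum.inrₗ ⟨a.1, h⟩), hout a h⟩ :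
        (Xᶜ : Set A) ⊕ₗ (Xᶜ : Set A)) else Sum.inrₗ ⟨a.1, h⟩) ?_
    intro a b hab
    by_cases ha : a.1 ∈ X <;> by_cases hb : b.1 ∈ X
    · simp only [ha, hb, dif_pos]
      refine Sum.Lex.inl_lt_inl_iff.mpr ?_
      exact f.strictMono (Sum.Lex.inr_lt_inr_iff.mpr hab)
    · simp only [ha, hb, dif_pos, dif_neg, not_false_eq_true]
      exact Sum.Lex.inl_lt_inr _ _
    · exact absurd (hlow (le_of_lt hab) hb) ha
    · simp only [ha, hb, dif_neg, not_false_eq_true]
      exact Sum.Lex.inr_lt_inr_iff.mpr hab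
  · -- `X + P ≤ X`
    refine emb_sum_of (f := fun x : X => (⟨f (Sum.inlₗ x), hin x⟩ : X))
      (g := fun a : P => (⟨f (Sum.inrₗ ⟨a.1, hPX a.2⟩), ?_⟩ : X)) ?_ ?_ ?_
    · exact a.2.2
    · intro a b hab
      exact f.strictMono (Sum.Lex.inl_lt_inl_iff.mpr hab)
    · intro a b hab
      exact f.strictMono (Sum.Lex.inr_lt_inr_iff.mpr hab)
    · intro a b
      exact f.strictMono (Sum.Lex.inl_lt_inr _ _)

/-- From a bad cut `(X, Xᶜ)` to another one `(P, Pᶜ)` with `P + 1 + P ≤ X`. -/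
lemma bad_double {A : Type} [LinearOrder A] (hI : DoublingInitial A) (hF : DoublingFinal A)
    (X : {X : Set A // Bad X}) :
    ∃ P : {X : Set A // Bad X}, ∃ (m : X.1) (l r : P.1 → X.1), StrictMono l ∧ StrictMono r ∧
      (∀ a, l a < m) ∧ ∀ a, m < r a := by
  obtain ⟨P, hP, hPX, ⟨p, hp⟩, ⟨g⟩⟩ := bad_step hI hF X.1 X.2
  refine ⟨⟨P, hP⟩, g (Sum.inlₗ (g (Sum.inrₗ ⟨p, hp⟩))),
    fun a => g (Sum.inlₗ (g (Sum.inlₗ ⟨a.1, hPX a.2⟩))), fun a => g (Sum.inrₗ a), ?_, ?_, ?_, ?_⟩
  · intro a b hab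
    exact g.strictMono (Sum.Lex.inl_lt_inl_iff.mpr
      (g.strictMono (Sum.Lex.inl_lt_inl_iff.mpr hab)))
  · intro a b hab
    exact g.strictMono (Sum.Lex.inr_lt_inr_iff.mpr hab)
  · intro a
    exact g.strictMono (Sum.Lex.inl_lt_inl_iff.mpr (g.strictMono (Sum.Lex.inl_lt_inr _ _)))
  · intro a
    exact g.strictMono (Sum.Lex.inl_lt_inr _ _)

/-! ### The binary tree -/

section Tree

variable {A : Type} [LinearOrder A] {𝓢 : Set A → Prop}
  (next : {X : Set A // 𝓢 X} → {X : Set A // 𝓢 X}) (m : ∀ X : {X : Set A // 𝓢 X}, X.1)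
  (l r : ∀ X : {X : Set A // 𝓢 X}, (next X).1 → X.1)

/-- The point of `X` attached to a node of the binary tree. -/
def pt : List Bool → ∀ X : {X : Set A // 𝓢 X}, X.1
  | [], X => m X
  | false :: p, X => l X (pt p (next X))
  | true :: p, X => r X (pt p (next X))

variable {next m l r} (hl : ∀ X, StrictMono (l X)) (hr : ∀ X, StrictMono (r X))
  (hlm : ∀ X a, l X a < m X) (hmr : ∀ X a, m X < r X a)

include hl hlm hmr in
lemma pt_no_min (q : List Bool) : ∀ X, ∃ s, pt next m l r s X < pt next m l r q X := by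
  induction q with
  | nil => exact fun X => ⟨[false], hlm X _⟩
  | cons b q ih =>
    intro X
    cases b
    · obtain ⟨s, hs⟩ := ih (next X)
      exact ⟨false :: s, hl X hs⟩
    · exact ⟨[], hmr X _⟩

include hr hlm hmr in
lemma pt_no_max (q : List Bool) : ∀ X, ∃ s, pt next m l r q X < pt next m l r s X := by
  induction q with
  | nil => exact fun X => ⟨[true], hmr X _⟩
  | cons b q ih =>
    intro X
    cases b
    · exact ⟨[], hlm X _⟩
    · obtain ⟨s, hs⟩ := ih (next X)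
      exact ⟨true :: s, hr X hs⟩

include hl hr hlm hmr in
lemma pt_dense (p : List Bool) : ∀ (q : List Bool) (X), pt next m l r p X < pt next m l r q X →
    ∃ s, pt next m l r p X < pt next m l r s X ∧ pt next m l r s X < pt next m l r q X := by
  induction p with
  | nil =>
    intro q X h
    rcases q with _ | ⟨b, q⟩
    · exact absurd h (lt_irrefl _)
    · cases b
      · exact absurd h (not_lt.2 (hlm X _).le)
      · obtain ⟨s, hs⟩ := pt_no_min hl hlm hmr q (next X)
        exact ⟨true :: s, hmr X _, hr X hs⟩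
  | cons c p ih =>
    intro q X h
    cases c
    · rcases q with _ | ⟨b, q⟩
      · obtain ⟨s, hs⟩ := pt_no_max hr hlm hmr p (next X)
        exact ⟨false :: s, hl X hs, hlm X _⟩
      · cases b
        · obtain ⟨s, hs1, hs2⟩ := ih q (next X) ((hl X).lt_iff_lt.1 h)
          exact ⟨false :: s, hl X hs1, hl X hs2⟩
        · exact ⟨[], hlm X _, hmr X _⟩
    · rcases q with _ | ⟨b, q⟩
      · exact absurd h (not_lt.2 (hmr X _).le)
      · cases b
        · exact absurd h (not_lt.2 ((hlm X _).trans (hmr X _)).le)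
        · obtain ⟨s, hs1, hs2⟩ := ih q (next X) ((hr X).lt_iff_lt.1 h)
          exact ⟨true :: s, hr X hs1, hr X hs2⟩

include hl hr hlm hmr in
lemma emb_of_tree [Countable A] (X : {X : Set A // 𝓢 X}) : Emb A X.1 := by
  let D : Set X.1 := Set.range fun p => pt next m l r p X
  have hdense : DenselyOrdered D := by
    refine ⟨?_⟩
    rintro ⟨_, p, rfl⟩ ⟨_, q, rfl⟩ h
    obtain ⟨s, hs1, hs2⟩ := pt_dense hl hr hlm hmr p q X h
    exact ⟨⟨_, s, rfl⟩, hs1, hs2⟩
  have hnon : Nontrivial D := by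
    refine ⟨⟨⟨_, [], rfl⟩, ⟨_, [true], rfl⟩, ?_⟩⟩
    intro h
    have h1 : m X = pt next m l r [true] X := congrArg (fun d : D => (d : X.1)) h
    exact absurd h1 (hmr X _).ne
  obtain ⟨f⟩ := Order.embedding_from_countable_to_dense A D
  exact ⟨f.trans (OrderEmbedding.subtype _)⟩

end Tree

theorem unsecable_of_doubling {A : Type} [LinearOrder A] [Countable A] (hI : DoublingInitial A)
    (hF : DoublingFinal A) : Unsecable A := by
  intro B C _ _ ⟨e⟩
  by_contra hcon
  rw [not_or] at hcon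
  obtain ⟨X, hX, h1, h2⟩ := split (Emb.of_iso e)
  have hbad : Bad X := ⟨hX, fun h => hcon.1 (h.trans h1), fun h => hcon.2 (h.trans h2)⟩
  choose next m l r hl hr hlm hmr using bad_double hI hF
  exact hbad.2.1 (emb_of_tree (𝓢 := Bad) hl hr hlm hmr ⟨X, hbad⟩)

/-- A countable chain is unsecable if and only if `X + X < A` for every initial or final interval
`X` of `A` with `X < A`, and if and only if `X + X < A` for every convex subset `X` of `A` with
`X < A`. -/
theorem result (A : Type) [LinearOrder A] [Countable A] :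
    (Unsecable A ↔ DoublingInitial A ∧ DoublingFinal A) ∧ (Unsecable A ↔ DoublingConvex A) := by
  have h1 : DoublingConvex A → DoublingInitial A ∧ DoublingFinal A := fun h =>
    ⟨fun X hX => h X hX.ordConnected, fun X hX => h X hX.ordConnected⟩
  have h2 : DoublingInitial A ∧ DoublingFinal A → Unsecable A := fun h =>
    unsecable_of_doubling h.1 h.2
  exact ⟨⟨fun h => h1 (convex_of_unsecable h), h2⟩,
    ⟨convex_of_unsecable, fun h => h2 (h1 h)⟩⟩

end Pool.Agent.Results.MP_5790d7_co.Characterisation
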