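import Mathlib

/-!
# A countable chain with doubling initial intervals that is not unsecable

The chain is `A = ω + ω·ω*`, that is, a copy of `ℕ` followed by `ω*` many copies of `ℕ`.
Every initial interval `X` of `A` is finite, or is the first copy of `ω`, or contains a copy of `A`.
Hence `X < A` forces `X ≤ ω`, and then `X + X ≤ ω + ω < A`.
On the other hand `A = B + C` with `B = ω` and `C = ω·ω*`, and neither `A ≤ B` nor `A ≤ C`.
-/

set_option autoImplicit false

namespace Pool.Agent.Results.MP_5790d7_co.NotUnsecable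

/-- `Emb A B` is `A ≤ B`: the chain `A` embeds in the chain `B`. -/
def Emb (A B : Type) [LinearOrder A] [LinearOrder B] : Prop := Nonempty (A ↪o B)

/-- `SEmb A B` is `A < B`: `A ≤ B` but not `B ≤ A`. -/
def SEmb (A B : Type) [LinearOrder A] [LinearOrder B] : Prop := Emb A B ∧ ¬ Emb B A

/-- The chain `A` is unsecable: whenever `A` splits as a sum `B + C`, `A ≤ B` or `A ≤ C`. -/
def Unsecable (A : Type) [LinearOrder A] : Prop :=
  ∀ (B C : Type) [LinearOrder B] [LinearOrder C], Nonempty (A ≃o (B ⊕ₗ C)) → Emb A B ∨ Emb A C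

/-- Every initial interval `X` of `A` with `X < A` satisfies `X + X < A`. -/
def DoublingIntervals (A : Type) [LinearOrder A] : Prop :=
  ∀ X : Set A, IsLowerSet X → SEmb X A → SEmb (X ⊕ₗ X) A

/-- `C = ω·ω*`: the chain `… + ω + ω + ω`. -/
abbrev Cc : Type := ℕᵒᵈ ×ₗ ℕ

/-- The counterexample `A = ω + ω·ω*`. -/
abbrev Ac : Type := ℕ ⊕ₗ Cc

/-- The descending sequence of the least elements of the copies of `ω` in the second summand. -/
def des (n : ℕ) : Ac := Sum.inrₗ (toLex (OrderDual.toDual n, 0))

lemma des_anti : StrictAnti des := by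
  apply strictAnti_nat_of_succ_lt
  intro n
  unfold des
  rw [Sum.Lex.inr_lt_inr_iff, Prod.Lex.toLex_lt_toLex]
  left
  exact OrderDual.toDual_lt_toDual.mpr (Nat.lt_succ_self n)

/-- `A` does not embed in a well-founded chain. -/
lemma no_emb_wf (B : Type) [LinearOrder B] [WellFoundedLT B] : ¬ Emb Ac B := by
  rintro ⟨f⟩
  exact not_strictAnti_of_wellFoundedLT (fun n => f (des n))
    (fun _ _ h => f.strictMono (des_anti h))

/-- `A` does not embed in `C`. -/
lemma no_emb_C : ¬ Emb Ac Cc := by
  rintro ⟨f⟩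
  set b : Cc := f (Sum.inlₗ 0) with hb
  set N : ℕ := OrderDual.ofDual (ofLex b).1 with hN
  -- everything above `b` lies in the last `N + 1` copies of `ω`
  let g : ℕ → ℕ ×ₗ ℕ := fun n =>
    toLex (N - OrderDual.ofDual (ofLex (f (des n))).1, (ofLex (f (des n))).2)
  have hle : ∀ n, OrderDual.ofDual (ofLex (f (des n))).1 ≤ N := by
    intro n
    have h1 : b < f (des n) := by
      rw [hb]
      apply f.strictMono
      unfold des
      exact Sum.Lex.inl_lt_inr _ _
    rw [Prod.Lex.lt_iff] at h1
    rcases h1 with h1 | h1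
    · exact (OrderDual.ofDual_lt_ofDual.mpr h1).le
    · rw [hN, h1.1]
  have hg : StrictAnti g := by
    intro m n hmn
    have h1 : f (des n) < f (des m) := f.strictMono (des_anti hmn)
    rw [Prod.Lex.lt_iff] at h1
    show toLex _ < toLex _
    rw [Prod.Lex.toLex_lt_toLex]
    rcases h1 with h1 | h1
    · left
      have h2 := OrderDual.ofDual_lt_ofDual.mpr h1
      have h3 := hle n
      have h4 := hle m
      show N - _ < N - _
      omega
    · right
      refine ⟨?_, h1.2⟩
      show N - _ = N - _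
      rw [h1.1]
  exact not_strictAnti_of_wellFoundedLT g hg

/-- Shifting the second summand by `k` copies of `ω`. -/
def shift (k : ℕ) : Ac → Ac := fun a =>
  match ofLex a with
  | Sum.inl m => Sum.inlₗ m
  | Sum.inr c => Sum.inrₗ (toLex (OrderDual.toDual (OrderDual.ofDual (ofLex c).1 + k), (ofLex c).2))

lemma shift_strictMono (k : ℕ) : StrictMono (shift k) := by
  intro a b hab
  rcases a with a | a <;> rcases b with b | b
  · exact Sum.Lex.inl_lt_inl_iff.mpr (Sum.Lex.inl_lt_inl_iff.mp hab)
  · exact Sum.Lex.inl_lt_inr _ _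
  · exact absurd hab Sum.Lex.not_inr_lt_inl
  · have h1 : a < b := Sum.Lex.inr_lt_inr_iff.mp hab
    apply Sum.Lex.inr_lt_inr_iff.mpr
    rw [Prod.Lex.lt_iff] at h1
    rw [Prod.Lex.toLex_lt_toLex]
    rcases h1 with h1 | h1
    · left
      have h2 := OrderDual.ofDual_lt_ofDual.mpr h1
      apply OrderDual.toDual_lt_toDual.mpr
      show _ + k < _ + k
      exact Nat.add_lt_add_right h2 k
    · right
      refine ⟨?_, h1.2⟩
      show OrderDual.toDual _ = OrderDual.toDual _
      rw [h1.1]

/-- An initial interval meeting the second summand contains a copy of `A`. -/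
lemma emb_of_mem (X : Set Ac) (hX : IsLowerSet X) (c : Cc) (hc : (Sum.inrₗ c : Ac) ∈ X) :
    Emb Ac X := by
  set k : ℕ := OrderDual.ofDual (ofLex c).1 + 1 with hk
  have hmem : ∀ a : Ac, shift k a ∈ X := by
    intro a
    refine hX (a := Sum.inrₗ c) ?_ hc
    rcases a with a | a
    · exact (Sum.Lex.inl_lt_inr _ _).le
    · apply le_of_lt
      apply Sum.Lex.inr_lt_inr_iff.mpr
      rw [Prod.Lex.lt_iff]
      left
      show _ < (ofLex c).1
      rw [← OrderDual.ofDual_lt_ofDual]
      show OrderDual.ofDual (ofLex c).1 < _ + k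
      omega
  exact ⟨OrderEmbedding.ofStrictMono (fun a => (⟨shift k a, hmem a⟩ : X))
    (fun _ _ h => shift_strictMono k h)⟩

/-- the natural number carried by an element of the first summand (junk on the second) -/
def nat1 (a : Ac) : ℕ :=
  match ofLex a with
  | Sum.inl m => m
  | Sum.inr _ => 0

lemma doubling : DoublingIntervals Ac := by
  intro X hX hlt
  have hno : ∀ c : Cc, (Sum.inrₗ c : Ac) ∉ X := fun c hc => hlt.2 (emb_of_mem X hX c hc)
  have hmono : ∀ a b : X, a < b → nat1 a.1 < nat1 b.1 := by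
    rintro ⟨a, ha⟩ ⟨b, hb⟩ hab
    rcases a with a | a
    · rcases b with b | b
      · exact Sum.Lex.inl_lt_inl_iff.mp (show toLex (Sum.inl a : ℕ ⊕ Cc) < toLex (Sum.inl b) from hab)
      · exact absurd hb (hno b)
    · exact absurd ha (hno a)
  constructor
  · -- `X + X ≤ A`
    let g : X ⊕ₗ X → Ac := fun x =>
      match ofLex x with
      | Sum.inl a => Sum.inlₗ (nat1 a.1)
      | Sum.inr a => Sum.inrₗ (toLex (OrderDual.toDual 0, nat1 a.1))
    refine ⟨OrderEmbedding.ofStrictMono g ?_⟩
    intro a b hab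
    rcases a with a | a <;> rcases b with b | b
    · exact Sum.Lex.inl_lt_inl_iff.mpr (hmono _ _ (Sum.Lex.inl_lt_inl_iff.mp hab))
    · exact Sum.Lex.inl_lt_inr _ _
    · exact absurd hab Sum.Lex.not_inr_lt_inl
    · have h1 : a < b := Sum.Lex.inr_lt_inr_iff.mp hab
      apply Sum.Lex.inr_lt_inr_iff.mpr
      rw [Prod.Lex.toLex_lt_toLex]
      right
      exact ⟨rfl, hmono _ _ h1⟩
  · -- `A` does not embed in `X + X`
    rintro ⟨f⟩
    let h : X ⊕ₗ X → ℕ ×ₗ ℕ := fun x =>
      match ofLex x with
      | Sum.inl a => toLex (0, nat1 a.1)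
      | Sum.inr a => toLex (1, nat1 a.1)
    have hh : StrictMono h := by
      intro a b hab
      rcases a with a | a <;> rcases b with b | b
      · apply Prod.Lex.toLex_lt_toLex.mpr
        right
        exact ⟨rfl, hmono _ _ (Sum.Lex.inl_lt_inl_iff.mp hab)⟩
      · apply Prod.Lex.toLex_lt_toLex.mpr
        left
        exact Nat.zero_lt_one
      · exact absurd hab Sum.Lex.not_inr_lt_inl
      · apply Prod.Lex.toLex_lt_toLex.mpr
        right
        exact ⟨rfl, hmono _ _ (Sum.Lex.inr_lt_inr_iff.mp hab)⟩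
    exact no_emb_wf (ℕ ×ₗ ℕ) ⟨OrderEmbedding.ofStrictMono (fun a => h (f a))
      (fun _ _ hab => hh (f.strictMono hab))⟩

lemma not_unsecable : ¬ Unsecable Ac := by
  intro H
  rcases H ℕ Cc ⟨OrderIso.refl _⟩ with h | h
  · exact no_emb_wf ℕ h
  · exact no_emb_C h

/-- There is a countable chain `A` such that `X + X < A` for every initial interval `X` of `A`
with `X < A`, but `A` is not unsecable. -/
theorem result : ∃ (A : Type) (_ : LinearOrder A),
    Countable A ∧ DoublingIntervals A ∧ ¬ Unsecable A := by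
  refine ⟨Ac, inferInstance, ?_, doubling, not_unsecable⟩
  exact inferInstanceAs (Countable (ℕ ⊕ (ℕ × ℕ)))

end Pool.Agent.Results.MP_5790d7_co.NotUnsecable
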